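import Pool.Agent.X199.Korovin

/-!
# No Korovin orbit is paracompact
-/

set_option autoImplicit false

open Set Topology

universe u v

namespace Pool.Agent.Results.MP_f351c6_gt.KorovinNotParacompact

open Pool.Agent.X199

/-- Let `G` be an Abelian group, `X` a space with at least two points and `f : G → X` a Korovin
mapping. Then the Korovin orbit `G_f` is not paracompact (Hausdorff included). Moreover, if the
topology of `X` is not indiscrete, then `G_f` is not even submetacompact. -/
theorem result (G : Type u) [CommGroup G] (X : Type v) [TopologicalSpace X] [Nontrivial X]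
    (f : G → X) (hf : IsKorovin f) :
    ¬ (T2Space (KOrbit f) ∧ ParacompactSpace (KOrbit f)) ∧
      ((∃ U : Set X, IsOpen U ∧ U.Nonempty ∧ U ≠ univ) → ¬ Submetacompact (KOrbit f)) := by
  refine ⟨fun h => ?_, fun h => not_submetacompact hf h⟩
  obtain ⟨h1, h2⟩ := h
  exact not_submetacompact hf (exists_open_of_t2 hf h1) (submetacompact_of_paracompact _)

end Pool.Agent.Results.MP_f351c6_gt.KorovinNotParacompact
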